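import Pool.Agent.Helper35.Jam.Flex

/-!
# MP_79ad04_gt: a jammed spherical code that is not infinitesimally jammed

The definitions are those of the problem, written with coordinates: a point of `ℝ^n` is a
function `Fin n → ℝ`, and a configuration of `N` points is a function `Fin N → Fin n → ℝ`.
-/

set_option autoImplicit false

namespace Pool.Agent.Results.MP_79ad04_gt.MotionJammed

open Pool.Agent.Helper35.Jam

/-- The inner product of `ℝ^n`. -/
def dot {n : ℕ} (u w : Fin n → ℝ) : ℝ := ∑ k, u k * w k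

/-- The distance of `ℝ^n`. -/
noncomputable def eucl {n : ℕ} (u w : Fin n → ℝ) : ℝ := Real.sqrt (∑ k, (u k - w k) ^ 2)

/-- A spherical code: `N ≥ 2` distinct points of the unit sphere of `ℝ^n`. -/
def IsSphericalCode {n N : ℕ} (x : Fin N → Fin n → ℝ) : Prop :=
  2 ≤ N ∧ Function.Injective x ∧ ∀ i, dot (x i) (x i) = 1

/-- The minimal distance of a code: the least distance between two of its points. -/
noncomputable def minDist {n N : ℕ} (x : Fin N → Fin n → ℝ) : ℝ :=
  sInf {s : ℝ | ∃ i j : Fin N, i ≠ j ∧ eucl (x i) (x j) = s}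

/-- The code spans `ℝ^n`: every vector is a linear combination of its points. -/
def Spans {n N : ℕ} (x : Fin N → Fin n → ℝ) : Prop :=
  ∀ u : Fin n → ℝ, ∃ a : Fin N → ℝ, ∀ k, u k = ∑ i, a i * x i k

/-- The configuration `y` is the image of `x` under a single orthogonal matrix `Q`. -/
def IsOrthogonalImage {n N : ℕ} (x y : Fin N → Fin n → ℝ) : Prop :=
  ∃ Q : Fin n → Fin n → ℝ, (∀ k l, ∑ m, Q m k * Q m l = if k = l then 1 else 0) ∧
    ∀ i k, y i k = ∑ l, Q k l * x i l

/-- A continuous motion of the code `x`: for times `t` in `[0, 1]`, paths `p i t` on the unit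
sphere, continuous in `t`, starting at `x i`, with all mutual distances at all times at least the
minimal distance of `x`. -/
def IsMotion {n N : ℕ} (x : Fin N → Fin n → ℝ) (p : Fin N → ℝ → Fin n → ℝ) : Prop :=
  (∀ i k, ContinuousOn (fun t => p i t k) (Set.Icc 0 1)) ∧
  (∀ i, p i 0 = x i) ∧
  (∀ i, ∀ t ∈ Set.Icc (0 : ℝ) 1, dot (p i t) (p i t) = 1) ∧
  ∀ t ∈ Set.Icc (0 : ℝ) 1, ∀ i j, i ≠ j → minDist x ≤ eucl (p i t) (p j t)

/-- Jammed: no continuous motion ever leaves the set of orthogonal images of the code. -/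
def IsJammed {n N : ℕ} (x : Fin N → Fin n → ℝ) : Prop :=
  ¬ ∃ p : Fin N → ℝ → Fin n → ℝ, IsMotion x p ∧
    ∃ t ∈ Set.Icc (0 : ℝ) 1, ¬ IsOrthogonalImage x (fun i => p i t)

/-- Infinitesimally jammed: every family of tangent vectors that does not decrease the length
of a contact to first order is given by a skew-symmetric matrix. -/
def IsInfinitesimallyJammed {n N : ℕ} (x : Fin N → Fin n → ℝ) : Prop :=
  ∀ v : Fin N → Fin n → ℝ, (∀ i, dot (v i) (x i) = 0) →
    (∀ i j, i ≠ j → eucl (x i) (x j) = minDist x →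
      0 ≤ dot (fun k => x i k - x j k) (fun k => v i k - v j k)) →
    ∃ A : Fin n → Fin n → ℝ, (∀ k l, A k l = -A l k) ∧ ∀ i k, v i k = ∑ l, A k l * x i l

/-! ### Passage to Euclidean space -/

/-- Euclidean space `ℝ^n`. -/
abbrev E (n : ℕ) : Type := EuclideanSpace ℝ (Fin n)

theorem inner_toLp {n : ℕ} (u w : Fin n → ℝ) :
    (inner ℝ (WithLp.toLp 2 u : E n) (WithLp.toLp 2 w : E n) : ℝ) = dot u w := by
  rw [PiLp.inner_apply, dot]
  refine Finset.sum_congr rfl fun k _ => ?_
  simp [mul_comm]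

theorem inner_ofLp {n : ℕ} (u w : E n) : (inner ℝ u w : ℝ) = dot u.ofLp w.ofLp := by
  rw [← inner_toLp]

theorem norm_toLp {n : ℕ} (u : Fin n → ℝ) (h : dot u u = 1) : ‖(WithLp.toLp 2 u : E n)‖ = 1 := by
  have h1 : ‖(WithLp.toLp 2 u : E n)‖ ^ 2 = 1 := by
    rw [← real_inner_self_eq_norm_sq, inner_toLp, h]
  nlinarith [norm_nonneg (WithLp.toLp 2 u : E n)]

theorem dist_toLp {n : ℕ} (u w : Fin n → ℝ) :
    dist (WithLp.toLp 2 u : E n) (WithLp.toLp 2 w : E n) = eucl u w := by
  rw [EuclideanSpace.dist_eq, eucl]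
  congr 1
  refine Finset.sum_congr rfl fun k _ => ?_
  rw [Real.dist_eq, sq_abs]

theorem orthogonalImage_of_isometry {n N : ℕ} (x y : Fin N → Fin n → ℝ) (g : E n ≃ₗᵢ[ℝ] E n)
    (h : ∀ i, (WithLp.toLp 2 (y i) : E n) = g (WithLp.toLp 2 (x i))) : IsOrthogonalImage x y := by
  obtain ⟨M, hM⟩ : ∃ M : Matrix (Fin n) (Fin n) ℝ,
      Matrix.toEuclideanLin M = (g.toLinearEquiv : E n →ₗ[ℝ] E n) :=
    ⟨_, LinearEquiv.apply_symm_apply _ _⟩
  have hM' : ∀ v, Matrix.toEuclideanLin M v = g v := fun v => by rw [hM]; rfl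
  have hc : ∀ k l, (g (EuclideanSpace.single l (1 : ℝ))) k = M k l := by
    intro k l
    rw [← hM']
    simp
  refine ⟨fun k l => M k l, fun i j => ?_, fun i k => ?_⟩
  · have h2 : inner ℝ (g (EuclideanSpace.single i (1 : ℝ)))
        (g (EuclideanSpace.single j (1 : ℝ))) = (if i = j then 1 else 0 : ℝ) := by
      rw [g.inner_map_map]
      simp [EuclideanSpace.inner_single_left]
    rw [← h2, PiLp.inner_apply]
    refine Finset.sum_congr rfl fun k _ => ?_
    rw [hc, hc]
    simp [mul_comm]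
  · have h3 : y i k = (WithLp.toLp 2 (y i) : E n) k := rfl
    rw [h3, h i, ← hM']
    rfl

theorem jammed_of_isolated {n N : ℕ} (x : Fin N → Fin n → ℝ)
    (hspan : Submodule.span ℝ (Set.range fun i => (WithLp.toLp 2 (x i) : E n)) = ⊤)
    (hiso : ∃ ε : ℝ, 0 < ε ∧ ∀ y : Fin N → E n, (∀ i, ‖y i‖ = 1) →
      (∀ i, dist (y i) (WithLp.toLp 2 (x i)) < ε) →
      (∀ i j, i ≠ j → minDist x ≤ dist (y i) (y j)) →
      ∃ g : E n ≃ₗᵢ[ℝ] E n, ∀ i, y i = g (WithLp.toLp 2 (x i))) : IsJammed x := by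
  obtain ⟨ε, hε, hiso⟩ := hiso
  rintro ⟨p, ⟨hp1, hp2, hp3, hp4⟩, t1, ht1, hn⟩
  have hP : ∀ i, ContinuousOn (fun t => (WithLp.toLp 2 (p i t) : E n)) (Set.Icc 0 1) := by
    intro i
    have h1 : ContinuousOn (fun t => p i t) (Set.Icc 0 1) := continuousOn_pi.mpr (hp1 i)
    exact (PiLp.continuous_toLp 2 (fun _ : Fin n => ℝ)).comp_continuousOn h1
  set F : ℝ → Fin N → Fin N → ℝ := fun t i j =>
    inner ℝ (WithLp.toLp 2 (p i t) : E n) (WithLp.toLp 2 (p j t) : E n) with hF
  set G : Fin N → Fin N → ℝ := fun i j =>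
    inner ℝ (WithLp.toLp 2 (x i) : E n) (WithLp.toLp 2 (x j) : E n) with hG
  have hcont : ContinuousOn F (Set.Icc 0 1) := by
    rw [continuousOn_pi]
    intro i
    rw [continuousOn_pi]
    intro j
    exact (hP i).inner (hP j)
  have hcl : IsClosed ((F ⁻¹' {G}) ∩ Set.Icc (0 : ℝ) 1) := by
    rw [Set.inter_comm]
    exact hcont.preimage_isClosed_of_isClosed isClosed_Icc isClosed_singleton
  have h0 : (0 : ℝ) ∈ F ⁻¹' {G} := by
    rw [Set.mem_preimage, Set.mem_singleton_iff]
    funext i j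
    simp only [hF, hG, hp2]
  have key : ∀ t, t ∈ F ⁻¹' {G} → ∃ g : E n ≃ₗᵢ[ℝ] E n, ∀ i,
      (WithLp.toLp 2 (p i t) : E n) = g (WithLp.toLp 2 (x i)) := by
    intro t ht
    refine exists_isometry (fun i => (WithLp.toLp 2 (x i) : E n))
      (fun i => (WithLp.toLp 2 (p i t) : E n)) (fun i j => ?_) hspan
    rw [Set.mem_preimage, Set.mem_singleton_iff] at ht
    exact congrFun (congrFun ht i) j
  have hsub : Set.Icc (0 : ℝ) 1 ⊆ F ⁻¹' {G} := by
    refine hcl.Icc_subset_of_forall_mem_nhdsWithin h0 ?_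
    rintro t ⟨ht, ht0, ht1⟩
    obtain ⟨g, hg⟩ := key t ht
    have hev : ∀ᶠ s in nhdsWithin t (Set.Ioi t), ∀ i,
        dist (WithLp.toLp 2 (p i s) : E n) (WithLp.toLp 2 (p i t)) < ε := by
      rw [Filter.eventually_all]
      intro i
      have hc : ContinuousWithinAt (fun t => (WithLp.toLp 2 (p i t) : E n)) (Set.Icc 0 1) t :=
        hP i t ⟨ht0, ht1.le⟩
      have hc2 : Filter.Tendsto (fun t => (WithLp.toLp 2 (p i t) : E n))
          (nhdsWithin t (Set.Ioc t 1)) (nhds (WithLp.toLp 2 (p i t))) :=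
        hc.mono_left (nhdsWithin_mono t fun s hs => ⟨ht0.trans hs.1.le, hs.2⟩)
      rw [nhdsWithin_Ioc_eq_nhdsGT ht1] at hc2
      exact hc2 (Metric.ball_mem_nhds _ hε)
    have hev2 : ∀ᶠ s in nhdsWithin t (Set.Ioi t), s ∈ Set.Ioc t 1 :=
      Ioc_mem_nhdsGT ht1
    filter_upwards [hev, hev2] with s hs1 hs2
    have hs : s ∈ Set.Icc (0 : ℝ) 1 := ⟨ht0.trans hs2.1.le, hs2.2⟩
    obtain ⟨g', hg'⟩ := hiso (fun i => g.symm (WithLp.toLp 2 (p i s)))
      (fun i => by
        rw [LinearIsometryEquiv.norm_map]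
        exact norm_toLp _ (hp3 i s hs))
      (fun i => by
        have e : (WithLp.toLp 2 (x i) : E n) = g.symm (WithLp.toLp 2 (p i t)) := by
          rw [hg, LinearIsometryEquiv.symm_apply_apply]
        rw [e, LinearIsometryEquiv.dist_map]
        exact hs1 i)
      (fun i j hij => by
        rw [LinearIsometryEquiv.dist_map, dist_toLp]
        exact hp4 s hs i j hij)
    rw [Set.mem_preimage, Set.mem_singleton_iff]
    funext i j
    have e : ∀ k, (WithLp.toLp 2 (p k s) : E n) = g (g' (WithLp.toLp 2 (x k))) := by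
      intro k
      rw [← hg' k, LinearIsometryEquiv.apply_symm_apply]
    simp only [hF, hG]
    rw [e i, e j, LinearIsometryEquiv.inner_map_map, LinearIsometryEquiv.inner_map_map]
  obtain ⟨g, hg⟩ := key t1 (hsub ht1)
  exact hn (orthogonalImage_of_isometry x _ g hg)

/-! ### The code -/

/-- an enumeration of the index set of the code -/
noncomputable def en : Fin 18 ≃ Ix :=
  Fintype.equivOfCardEq (by simp [Ix])

/-- the code: 18 points of the unit sphere of `ℝ^9` -/
noncomputable def code : Fin 18 → Fin 9 → ℝ := fun i => (X0 (en i)).ofLp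

theorem toLp_code (i : Fin 18) : (WithLp.toLp 2 (code i) : E 9) = X0 (en i) := rfl

theorem dist_sq_unit (x y : E 9) (hx : ‖x‖ = 1) (hy : ‖y‖ = 1) :
    dist x y ^ 2 = 2 - 2 * inner ℝ x y := by
  rw [dist_eq_norm, norm_sub_sq_real, hx, hy]
  ring

theorem le_dist_iff (x y : E 9) (hx : ‖x‖ = 1) (hy : ‖y‖ = 1) :
    Real.sqrt (2 - 2 * c) ≤ dist x y ↔ inner ℝ x y ≤ c := by
  rw [Real.sqrt_le_left dist_nonneg, dist_sq_unit x y hx hy]
  constructor <;> intro h <;> linarith

theorem dist_eq_iff (x y : E 9) (hx : ‖x‖ = 1) (hy : ‖y‖ = 1) :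
    dist x y = Real.sqrt (2 - 2 * c) ↔ inner ℝ x y = c := by
  have h2 : (0 : ℝ) ≤ 2 - 2 * c := by linarith [c_lt]
  constructor
  · intro h
    have h3 := dist_sq_unit x y hx hy
    rw [h, Real.sq_sqrt h2] at h3
    linarith
  · intro h
    have h3 := dist_sq_unit x y hx hy
    rw [h] at h3
    rw [← h3, Real.sqrt_sq dist_nonneg]

theorem code_eucl (i j : Fin 18) : eucl (code i) (code j) = dist (X0 (en i)) (X0 (en j)) := by
  rw [← dist_toLp, toLp_code, toLp_code]

theorem code_le (i j : Fin 18) (hij : i ≠ j) :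
    Real.sqrt (2 - 2 * c) ≤ eucl (code i) (code j) := by
  rw [code_eucl, le_dist_iff _ _ (X0_unit _) (X0_unit _)]
  exact X0_le _ _ fun h => hij (en.injective h)

theorem code_minDist : minDist code = Real.sqrt (2 - 2 * c) := by
  refine IsLeast.csInf_eq ⟨⟨en.symm (Sum.inr (Sum.inr 0)), en.symm (Sum.inr (Sum.inr 1)), ?_, ?_⟩,
    ?_⟩
  · intro h
    have := en.symm.injective h
    simp at this
  · rw [code_eucl, dist_eq_iff _ _ (X0_unit _) (X0_unit _), Equiv.apply_symm_apply,
      Equiv.apply_symm_apply]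
    exact X0_contact
  · rintro s ⟨i, j, hij, rfl⟩
    exact code_le i j hij

theorem code_span : Submodule.span ℝ (Set.range fun i => (WithLp.toLp 2 (code i) : E 9)) = ⊤ := by
  have : (Set.range fun i => (WithLp.toLp 2 (code i) : E 9)) = Set.range X0 :=
    en.surjective.range_comp X0
  rw [this]
  exact X0_span

theorem code_spans : Spans code := by
  intro u
  have h : (WithLp.toLp 2 u : E 9) ∈
      Submodule.span ℝ (Set.range fun i => (WithLp.toLp 2 (code i) : E 9)) := by
    rw [code_span]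
    exact Submodule.mem_top
  obtain ⟨a, ha⟩ := (Submodule.mem_span_range_iff_exists_fun ℝ).mp h
  refine ⟨a, fun k => ?_⟩
  have h1 : u k = (WithLp.toLp 2 u : E 9) k := rfl
  rw [h1, ← ha]
  simp

theorem code_jammed : IsJammed code := by
  refine jammed_of_isolated code code_span ?_
  obtain ⟨ε, hε, hj⟩ := X0_jammed
  refine ⟨ε, hε, fun y hy1 hy2 hy3 => ?_⟩
  rw [code_minDist] at hy3
  obtain ⟨G, hG⟩ := hj (fun s => y (en.symm s)) (fun s => hy1 _) (fun s => by
    have := hy2 (en.symm s)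
    rw [toLp_code, Equiv.apply_symm_apply] at this
    exact this) (fun s t hst => by
    have h1 : en.symm s ≠ en.symm t := fun h => hst (en.symm.injective h)
    exact (le_dist_iff _ _ (hy1 _) (hy1 _)).mp (hy3 _ _ h1))
  refine ⟨G, fun i => ?_⟩
  have := hG (en i)
  simp only [Equiv.symm_apply_apply] at this
  exact this

theorem code_not_infinitesimally : ¬ IsInfinitesimallyJammed code := by
  intro hinf
  obtain ⟨A, hA1, hA2⟩ := hinf (fun i => (fl (en i)).ofLp)
    (fun i => by
      have h : inner ℝ (fl (en i)) (X0 (en i)) = 0 := by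
        rw [real_inner_comm]
        exact fl_unit _
      rw [inner_ofLp] at h
      exact h)
    (fun i j hij hd => by
      rw [code_minDist, code_eucl, dist_eq_iff _ _ (X0_unit _) (X0_unit _)] at hd
      have h1 := dG_contact (en i) (en j) (fun h => hij (en.injective h)) hd
      unfold dG at h1
      have h2 := fl_unit (en i)
      have h3 := fl_unit (en j)
      have h5 : (0 : ℝ) ≤ inner ℝ (X0 (en i) - X0 (en j)) (fl (en i) - fl (en j)) := by
        rw [inner_sub_left, inner_sub_right, inner_sub_right, h2, h3]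
        have h4 : inner ℝ (X0 (en j)) (fl (en i)) = inner ℝ (fl (en i)) (X0 (en j)) :=
          real_inner_comm _ _
        rw [h4]
        linarith
      rw [inner_ofLp] at h5
      exact h5)
  apply dG_ne
  have e1 := hA2 (en.symm (Sum.inl 0))
  have e2 := hA2 (en.symm (Sum.inr (Sum.inr 0)))
  simp only [code, Equiv.apply_symm_apply] at e1 e2
  unfold dG
  rw [inner_ofLp, inner_ofLp, dot, dot]
  simp only [e1, e2, Finset.mul_sum, Finset.sum_mul]
  rw [Finset.sum_comm, ← Finset.sum_add_distrib]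
  refine Finset.sum_eq_zero fun k _ => ?_
  rw [← Finset.sum_add_distrib]
  refine Finset.sum_eq_zero fun l _ => ?_
  rw [hA1 l k]
  ring

/-- There is a spherical code of 18 points on the unit sphere of `ℝ^9` that spans `ℝ^9`, is
jammed, and is not infinitesimally jammed. -/
theorem result : ∃ x : Fin 18 → Fin 9 → ℝ,
    IsSphericalCode x ∧ Spans x ∧ IsJammed x ∧ ¬ IsInfinitesimallyJammed x := by
  refine ⟨code, ⟨by norm_num, ?_, fun i => ?_⟩, code_spans, code_jammed,
    code_not_infinitesimally⟩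
  · intro i j hij
    by_contra hne
    have h1 := code_le i j hne
    rw [code_eucl] at h1
    have h3 : X0 (en i) = X0 (en j) := by
      rw [← toLp_code, ← toLp_code, hij]
    rw [h3, dist_self] at h1
    have h2 : 0 < Real.sqrt (2 - 2 * c) := Real.sqrt_pos.mpr (by linarith [c_lt])
    linarith
  · have h : inner ℝ (X0 (en i)) (X0 (en i)) = (1 : ℝ) := by
      rw [real_inner_self_eq_norm_sq, X0_unit]
      norm_num
    rw [inner_ofLp] at h
    exact h

end Pool.Agent.Results.MP_79ad04_gt.MotionJammed
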